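import Pool.Agent.Q181.BD.Stm2

/-!
# Project BD (helper181): jobs LL1 and OPP
-/

set_option autoImplicit false

namespace Pool.Agent.Q14.BD

open Pool.Agent.Q181.BD

variable {V : Type} {W : V → V → ℤ} {c : ℝ} {p q : ℤ → V}

theorem at_cases (htwo : S_two) (hN : Net W c) (hp : Line W p) {u : V} (hu : Off p u) {i : ℤ} (hi : W (p i) u ≠ 0)
    {k : ℤ} (hk : W (p k) u ≠ 0) : k = i - 2 ∨ k = i ∨ k = i + 2 := by
  rcases le_total i k with h | h
  · have := htwo V W c hN p hp u i k hu hi hk h
    omega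
  · have := htwo V W c hN p hp u k i hu hk hi h
    omega

/-- the largest neighbour -/
theorem exists_max (htwo : S_two) (hN : Net W c) (hp : Line W p) {u : V} (hu : Off p u) {i : ℤ} (hi : W (p i) u ≠ 0) :
    ∃ j, i ≤ j ∧ W (p j) u ≠ 0 ∧ ∀ k, W (p k) u ≠ 0 → k = j ∨ k = j - 2 := by
  by_cases h : W (p (i + 2)) u = 0
  · refine ⟨i, le_rfl, hi, fun k hk => ?_⟩
    rcases at_cases htwo hN hp hu hi hk with h1 | h1 | h1
    · exact Or.inr h1
    · exact Or.inl h1
    · rw [h1] at hk
      exact absurd h hk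
  · refine ⟨i + 2, by omega, h, fun k hk => ?_⟩
    have h1 := at_cases htwo hN hp hu hi hk
    have h2 := at_cases htwo hN hp hu h hk
    omega

theorem net_rev_even {i j : ℤ} (h : Even (i - j)) : Even (j - i) := by
  obtain ⟨k, hk⟩ := h
  exact ⟨-k, by omega⟩

/-- `u` instead of `p a` -/
def sw (p : ℤ → V) (a : ℤ) (u : V) : ℤ → V := fun k => if k = a then u else p k

theorem sw_self (p : ℤ → V) (a : ℤ) (u : V) : sw p a u a = u := if_pos rfl

theorem sw_ne (p : ℤ → V) {a k : ℤ} (u : V) (h : k ≠ a) : sw p a u k = p k := if_neg h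

theorem line_sw (hsy : ∀ u v, W u v = W v u) (hl : ∀ u, W u u = 0) (hp : Line W p) {u : V} {a : ℤ} (hu : Off p u)
    (h2 : Two W p u a) : Line W (sw p a u) := by
  constructor
  · intro i j hij
    unfold sw at hij
    by_cases h1 : i = a <;> by_cases h3 : j = a
    · omega
    · rw [if_pos h1, if_neg h3] at hij
      exact absurd hij.symm (hu j)
    · rw [if_neg h1, if_pos h3] at hij
      exact absurd hij (hu i)
    · rw [if_neg h1, if_neg h3] at hij
      exact hp.inj hij
  · intro i j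
    unfold sw
    by_cases h1 : i = a <;> by_cases h3 : j = a
    · rw [if_pos h1, if_pos h3, hl]
      constructor
      · intro h; exact absurd rfl h
      · intro h; omega
    · rw [if_pos h1, if_neg h3, hsy, h2]
      omega
    · rw [if_neg h1, if_pos h3, h2]
      omega
    · rw [if_neg h1, if_neg h3, hp.adj]

/-- (d) of `S_ll1` -/
theorem not_two (htwo : S_two) (hout : S_out) (hN : Net W c) (hp : Line W p) (hq : Line W q) (hd : Dis p q)
    (h0 : One W p (q 0) 0) : ¬ Two W p (q 1) 0 := by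
  intro h2
  have hl := line_sw hN.symm hN.loop hp (fun i => hd i 1) h2
  have e0 : sw p 0 (q 1) 0 = q 1 := sw_self _ _ _
  have ho0 : Off (sw p 0 (q 1)) (q 0) := by
    intro k hk
    unfold sw at hk
    split_ifs at hk with h
    · have := hq.inj hk
      omega
    · exact hd _ _ hk
  have ho2 : Off (sw p 0 (q 1)) (q 2) := by
    intro k hk
    unfold sw at hk
    split_ifs at hk with h
    · have := hq.inj hk
      omega
    · exact hd _ _ hk
  have h3 := hout V W c hN _ hl 0 (q 0) (q 2) (fun h => by have := hq.inj h; omega) ho0 ho2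
    (by rw [e0, hq.adj]; omega) (by rw [e0, hq.adj]; omega)
  have em : sw p 0 (q 1) (0 - 2) = p (-2) := sw_ne _ _ (by omega)
  have ep : sw p 0 (q 1) (0 + 2) = p 2 := sw_ne _ _ (by omega)
  rw [em, ep] at h3
  have n1 : ¬ W (p (-2)) (q 0) ≠ 0 := fun h => by have := (h0 _).1 h; omega
  have n2 : ¬ W (p 2) (q 0) ≠ 0 := fun h => by have := (h0 _).1 h; omega
  have h4 : W (p (-2)) (q 2) ≠ 0 := h3.1.resolve_left n1
  have h5 : W (p 2) (q 2) ≠ 0 := h3.2.resolve_left n2
  have := htwo V W c hN p hp (q 2) (-2) 2 (fun i => hd i 2) h4 h5 (by omega)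
  omega

/-- the line through `q 0`, `q 1` -/
theorem lineP (hsub : S_sub) (hN : Net W c) (hp : Line W p) (hq : Line W q) (hd : Dis p q)
    (h0 : One W p (q 0) 0) {j : ℤ} (h3 : 3 ≤ j) (hj : W (p j) (q 1) ≠ 0)
    (hmax : ∀ k, W (p k) (q 1) ≠ 0 → k = j ∨ k = j - 2) :
    Line W (sur p 0 j 2 (fun k => q ((k : ℤ) - 1))) := by
  refine hsub V W hN.symm p hp 0 j 2 (fun k => q ((k : ℤ) - 1)) (by omega) (by omega) ⟨?_, ?_, ?_⟩ ?_
  · intro k _ _ i
    exact hd i _
  · intro k l _ _ _ _ hkl
    have := hq.inj hkl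
    omega
  · intro k l _ _ _ _
    rw [hq.adj]
    omega
  · intro k i h1 h2 hi
    have hk : k = 1 ∨ k = 2 := by omega
    rcases hk with rfl | rfl
    · have e : (((1 : ℕ) : ℤ) - 1) = 0 := by norm_num
      simp only [e]
      rw [h0 i]
      constructor
      · intro h; exact Or.inl ⟨h, trivial⟩
      · rintro (h | h)
        · exact h.1
        · exact absurd h.2 (by decide)
    · have e : (((2 : ℕ) : ℤ) - 1) = 1 := by norm_num
      simp only [e]
      constructor
      · intro h
        have := hmax i h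
        exact Or.inr ⟨by omega, trivial⟩
      · rintro (h | h)
        · exact absurd h.2 (by decide)
        · rw [h.1]
          exact hj

theorem P_le {j i : ℤ} (h : i ≤ 0) : sur p 0 j 2 (fun k => q ((k : ℤ) - 1)) i = p i := sur_le _ _ _ _ _ _ h

theorem P_one {j : ℤ} : sur p 0 j 2 (fun k => q ((k : ℤ) - 1)) 1 = q 0 := by
  have := sur_mid p 0 j 2 (fun k => q ((k : ℤ) - 1)) 1 (by omega) (by omega)
  simpa using this

theorem P_two {j : ℤ} : sur p 0 j 2 (fun k => q ((k : ℤ) - 1)) 2 = q 1 := by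
  have := sur_mid p 0 j 2 (fun k => q ((k : ℤ) - 1)) 2 (by omega) (by omega)
  simpa using this

theorem P_ge {j l : ℤ} (h : j ≤ l) : sur p 0 j 2 (fun k => q ((k : ℤ) - 1)) (3 + (l - j)) = p l := by
  have := sur_ge p 0 j 2 (fun k => q ((k : ℤ) - 1)) l h
  rw [← this]
  congr 1
  push_cast
  ring

/-- positions on the new line -/
theorem P_cases {j : ℤ} (i : ℤ) : (i ≤ 0 ∧ sur p 0 j 2 (fun k => q ((k : ℤ) - 1)) i = p i) ∨
    (i = 1 ∧ sur p 0 j 2 (fun k => q ((k : ℤ) - 1)) i = q 0) ∨ (i = 2 ∧ sur p 0 j 2 (fun k => q ((k : ℤ) - 1)) i = q 1) ∨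
    (∃ l, j ≤ l ∧ i = 3 + (l - j) ∧ sur p 0 j 2 (fun k => q ((k : ℤ) - 1)) i = p l) := by
  rcases le_or_gt i 0 with h | h
  · exact Or.inl ⟨h, P_le h⟩
  · by_cases h1 : i = 1
    · refine Or.inr (Or.inl ⟨h1, ?_⟩)
      rw [h1]
      exact P_one
    · by_cases h2 : i = 2
      · refine Or.inr (Or.inr (Or.inl ⟨h2, ?_⟩))
        rw [h2]
        exact P_two
      · refine Or.inr (Or.inr (Or.inr ⟨i - 3 + j, by omega, by omega, ?_⟩))
        have := P_ge (p := p) (q := q) (j := j) (l := i - 3 + j) (by omega)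
        rwa [show 3 + (i - 3 + j - j) = i by ring] at this

/-- two side arms on the new line -/
theorem side (hsa : S_sa) (hsub : S_sub) (hN : Net W c) (hp : Line W p) (hq : Line W q) (hd : Dis p q)
    (h0 : One W p (q 0) 0) {j : ℤ} (h3 : 3 ≤ j) (hj : W (p j) (q 1) ≠ 0)
    (hmax : ∀ k, W (p k) (q 1) ≠ 0 → k = j ∨ k = j - 2) (hm : ∀ i, (i ≤ 0 ∨ j ≤ i) → W (p i) (q (-1)) = 0)
    (hm2 : W (p (j - 1)) (q (-1)) = 0) : False := by
  have hP := lineP hsub hN hp hq hd h0 h3 hj hmax
  refine hsa V W c hN _ hP 1 3 1 (fun _ => q (-1)) (p (j - 1)) le_rfl (by decide) ⟨?_, ?_, ?_⟩ ?_ ?_ ?_ ?_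
  · intro k _ _ i hi
    rcases P_cases (p := p) (q := q) (j := j) i with ⟨_, h⟩ | ⟨_, h⟩ | ⟨_, h⟩ | ⟨l, _, _, h⟩
    · rw [h] at hi; exact hd _ _ hi
    · rw [h] at hi; have := hq.inj hi; omega
    · rw [h] at hi; have := hq.inj hi; omega
    · rw [h] at hi; exact hd _ _ hi
  · intro k l _ _ _ _ _
    omega
  · intro k l h1 h2 h4 h5
    constructor
    · intro h; exact absurd (hN.loop _) h
    · intro h; omega
  · intro k a h1 h2
    rcases P_cases (p := p) (q := q) (j := j) a with ⟨ha, h⟩ | ⟨ha, h⟩ | ⟨ha, h⟩ | ⟨l, hl, ha, h⟩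
    · rw [h]
      constructor
      · intro h5; exact absurd (hm a (Or.inl ha)) h5
      · intro h5; omega
    · rw [h, hq.adj]
      constructor
      · intro _; exact ⟨ha, by omega⟩
      · intro _; omega
    · rw [h, hq.adj]
      constructor
      · intro h5; omega
      · intro h5; omega
    · rw [h]
      constructor
      · intro h5; exact absurd (hm l (Or.inr hl)) h5
      · intro h5; omega
  · intro i hi
    rcases P_cases (p := p) (q := q) (j := j) i with ⟨ha, h⟩ | ⟨_, h⟩ | ⟨_, h⟩ | ⟨l, hl, _, h⟩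
    · rw [h] at hi; have := hp.inj hi; omega
    · rw [h] at hi; exact hd _ _ hi.symm
    · rw [h] at hi; exact hd _ _ hi.symm
    · rw [h] at hi; have := hp.inj hi; omega
  · intro a
    rcases P_cases (p := p) (q := q) (j := j) a with ⟨ha, h⟩ | ⟨ha, h⟩ | ⟨ha, h⟩ | ⟨l, hl, ha, h⟩
    · rw [h, hp.adj]
      omega
    · rw [h, hN.symm, h0]
      omega
    · rw [h, hN.symm]
      constructor
      · intro h5
        have := hmax _ h5
        omega
      · intro h5; omega
    · rw [h, hp.adj]
      omega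
  · intro k _ _
    refine ⟨fun h => hd _ _ h.symm, ?_⟩
    rw [hN.symm]
    exact hm2

theorem dis_rev (hd : Dis p q) : Dis (fun k => p (-k)) q := fun i j => hd _ _

theorem dis_rev' (hd : Dis p q) : Dis p (fun k => q (-k)) := fun i j => hd _ _

/-- job LL1 -/
theorem t_ll1 (hsa : S_sa) (hsub : S_sub) (htwo : S_two) (hout : S_out) (hfork : S_fork) : S_ll1 := by
  intro V W c hN p q hp hq hd hf h00
  have hoff : ∀ s, Off p (q s) := fun s i => hd i s
  -- (a)
  have hA : ∀ a : ℤ, ¬ Two W p (q 0) a := by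
    intro a h2
    have hl := line_sw hN.symm hN.loop hp (hoff 0) h2
    have e0 : sw p a (q 0) a = q 0 := sw_self _ _ _
    have ho : ∀ s, s ≠ 0 → Off (sw p a (q 0)) (q s) := by
      intro s hs k hk
      unfold sw at hk
      split_ifs at hk with h
      · have := hq.inj hk
        omega
      · exact hd _ _ hk
    have h3 := hout V W c hN _ hl a (q 1) (q (-1)) (fun h => by have := hq.inj h; omega) (ho 1 (by omega))
      (ho (-1) (by omega)) (by rw [e0, hq.adj]; omega) (by rw [e0, hq.adj]; omega)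
    have em : sw p a (q 0) (a - 2) = p (a - 2) := sw_ne _ _ (by omega)
    have ep : sw p a (q 0) (a + 2) = p (a + 2) := sw_ne _ _ (by omega)
    rw [em, ep] at h3
    have h4 : W (p (a - 2)) (q 1) ≠ 0 := h3.1.resolve_right (fun h => h (hf _))
    have h5 : W (p (a + 2)) (q 1) ≠ 0 := h3.2.resolve_right (fun h => h (hf _))
    have := htwo V W c hN p hp (q 1) (a - 2) (a + 2) (hoff 1) h4 h5 (by omega)
    omega
  have h0 : One W p (q 0) 0 := by
    intro k
    constructor
    · intro hk
      rcases at_cases htwo hN hp (hoff 0) h00 hk with h | h | h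
      · exfalso
        refine hA (-1) fun l => ?_
        constructor
        · intro hl
          have a1 := at_cases htwo hN hp (hoff 0) h00 hl
          have a2 := at_cases htwo hN hp (hoff 0) hk hl
          omega
        · rintro (hl | hl)
          · rw [hl, show (-1 - 1 : ℤ) = k by omega]; exact hk
          · rw [hl]; exact h00
      · exact h
      · exfalso
        refine hA 1 fun l => ?_
        constructor
        · intro hl
          have a1 := at_cases htwo hN hp (hoff 0) h00 hl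
          have a2 := at_cases htwo hN hp (hoff 0) hk hl
          omega
        · rintro (hl | hl)
          · rw [hl]; exact h00
          · rw [hl, show (1 + 1 : ℤ) = k by omega]; exact hk
    · intro h; rw [h]; exact h00
  refine ⟨h0, ?_⟩
  -- (b)
  have hnf : ¬ Free W p (q 1) := by
    intro hf1
    exact hfork V W c hN p hp 0 (q 0) (q (-1)) (q 1) (hoff 0) h0 (fun h => by have := hq.inj h; omega) (hoff _) (hoff _)
      ((hq.adj _ _).2 (by omega)) ((hq.adj _ _).2 (by omega)) hf hf1
  -- parity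
  have h01 : W (q 0) (q 1) ≠ 0 := (hq.adj _ _).2 (by omega)
  have hodd : ∀ k, W (p k) (q 1) ≠ 0 → Odd k := by
    intro k hk
    have := hN.odd hp h01 h00 hk
    obtain ⟨m, hm⟩ := this
    exact ⟨-m - 1, by omega⟩
  -- (c)
  have hC : ∀ k, W (p k) (q 1) ≠ 0 → k < 3 := by
    intro k hk
    by_contra hcon
    obtain ⟨j, hkj, hj, hmax⟩ := exists_max htwo hN hp (hoff 1) hk
    exact side hsa hsub hN hp hq hd h0 (by omega) hj hmax (fun i _ => hf i) (hf _)
  have hC' : ∀ k, W (p k) (q 1) ≠ 0 → -3 < k := by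
    intro k hk
    by_contra hcon
    have hp' := hp.rev
    have hoff' : ∀ s, Off (fun k => p (-k)) (q s) := fun s i => hd _ s
    have h0' : One W (fun k => p (-k)) (q 0) 0 := by
      have := h0.rev
      rwa [neg_zero] at this
    have hk' : W ((fun k => p (-k)) (-k)) (q 1) ≠ 0 := by
      simp only [neg_neg]
      exact hk
    obtain ⟨j, hkj, hj, hmax⟩ := exists_max htwo hN hp' (hoff' 1) hk'
    exact side hsa hsub hN hp' hq (dis_rev hd) h0' (by omega) hj hmax (fun i _ => hf _) (hf _)
  -- (d)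
  have hD := not_two htwo hout hN hp hq hd h0
  unfold Free at hnf
  push Not at hnf
  obtain ⟨k, hk⟩ := hnf
  have hset : ∀ l, W (p l) (q 1) ≠ 0 → l = 1 ∨ l = -1 := by
    intro l hl
    have a1 := hC l hl
    have a2 := hC' l hl
    obtain ⟨m, hm⟩ := hodd l hl
    omega
  by_cases h1 : W (p 1) (q 1) = 0
  · right
    intro l
    constructor
    · intro hl
      rcases hset l hl with h | h
      · rw [h] at hl; exact absurd h1 hl
      · exact h
    · intro h
      rw [h]
      rcases hset k hk with h2 | h2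
      · rw [h2] at hk; exact absurd h1 hk
      · rw [h2] at hk; exact hk
  · left
    intro l
    constructor
    · intro hl
      rcases hset l hl with h | h
      · exact h
      · exfalso
        refine hD fun m => ?_
        constructor
        · intro hm
          have := hset m hm
          omega
        · rintro (hm | hm)
          · rw [hm, show (0 - 1 : ℤ) = l by omega]; exact hl
          · rw [hm]; exact h1
    · intro h; rw [h]; exact h1

/-! ## OPP -/

theorem odd_at (hN : Net W c) (hp : Line W p) {u v : V} (huv : W u v ≠ 0) (h0 : W (p 0) u ≠ 0) {k : ℤ}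
    (hk : W (p k) v ≠ 0) : Odd k := by
  obtain ⟨m, hm⟩ := hN.odd hp huv h0 hk
  exact ⟨-m - 1, by omega⟩

/-- the neighbours of `q 1` are all positive or all negative -/
theorem posneg (htwo : S_two) (hout : S_out) (hN : Net W c) (hp : Line W p) (hq : Line W q) (hd : Dis p q)
    (h0 : One W p (q 0) 0) : (∀ k, W (p k) (q 1) ≠ 0 → 0 < k) ∨ (∀ k, W (p k) (q 1) ≠ 0 → k < 0) := by
  have hD := not_two htwo hout hN hp hq hd h0
  have h01 : W (q 0) (q 1) ≠ 0 := (hq.adj _ _).2 (by omega)
  have h00 : W (p 0) (q 0) ≠ 0 := (h0 0).2 rfl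
  by_cases h : ∃ k, W (p k) (q 1) ≠ 0 ∧ 0 < k
  · left
    obtain ⟨k, hk, hk0⟩ := h
    intro l hl
    by_contra hcon
    obtain ⟨a, ha⟩ := odd_at hN hp h01 h00 hk
    obtain ⟨b, hb⟩ := odd_at hN hp h01 h00 hl
    have h1 := at_cases htwo hN hp (fun i => hd i 1) hk hl
    refine hD fun m => ?_
    constructor
    · intro hm
      have h2 := at_cases htwo hN hp (fun i => hd i 1) hk hm
      have h3 := at_cases htwo hN hp (fun i => hd i 1) hl hm
      omega
    · rintro (hm | hm)
      · rw [hm, show (0 - 1 : ℤ) = l by omega]; exact hl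
      · rw [hm, show (0 + 1 : ℤ) = k by omega]; exact hk
  · right
    push Not at h
    intro l hl
    obtain ⟨b, hb⟩ := odd_at hN hp h01 h00 hl
    have := h l hl
    omega

/-- half of (2) of `S_opp` -/
theorem both_aux (hsa : S_sa) (hsub : S_sub) (htwo : S_two) (hout : S_out) (hN : Net W c) (hp : Line W p) (hq : Line W q)
    (hd : Dis p q) (h0 : One W p (q 0) 0) {j : ℤ} (h3 : 3 ≤ j) (hj : W (p j) (q 1) ≠ 0)
    (hmax : ∀ k, W (p k) (q 1) ≠ 0 → k = j ∨ k = j - 2) (hpos : ∀ k, W (p k) (q (-1)) ≠ 0 → 0 < k) : False := by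
  have h01 : W (q 0) (q 1) ≠ 0 := (hq.adj _ _).2 (by omega)
  have h0m : W (q 0) (q (-1)) ≠ 0 := (hq.adj _ _).2 (by omega)
  have h00 : W (p 0) (q 0) ≠ 0 := (h0 0).2 rfl
  have hP := lineP hsub hN hp hq hd h0 h3 hj hmax
  have hoffP : Off (sur p 0 j 2 (fun k => q ((k : ℤ) - 1))) (q (-1)) := by
    intro i hi
    rcases P_cases (p := p) (q := q) (j := j) i with ⟨_, h⟩ | ⟨_, h⟩ | ⟨_, h⟩ | ⟨l, _, _, h⟩
    · rw [h] at hi; exact hd _ _ hi
    · rw [h] at hi; have := hq.inj hi; omega
    · rw [h] at hi; have := hq.inj hi; omega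
    · rw [h] at hi; exact hd _ _ hi
  have hkey : ∀ i, j ≤ i → W (p i) (q (-1)) ≠ 0 → i = j := by
    intro i hi hw
    have h1 : W (sur p 0 j 2 (fun k => q ((k : ℤ) - 1)) 1) (q (-1)) ≠ 0 := by rw [P_one]; exact h0m
    have h2 : W (sur p 0 j 2 (fun k => q ((k : ℤ) - 1)) (3 + (i - j))) (q (-1)) ≠ 0 := by rw [P_ge hi]; exact hw
    have := htwo V W c hN _ hP (q (-1)) 1 (3 + (i - j)) hoffP h1 h2 (by omega)
    omega
  obtain ⟨a, ha⟩ := odd_at hN hp h01 h00 hj
  by_cases hw : W (p j) (q (-1)) = 0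
  · refine side hsa hsub hN hp hq hd h0 h3 hj hmax (fun i hi => ?_) ?_
    · by_contra hcon
      rcases hi with h | h
      · have := hpos i hcon
        omega
      · rw [hkey i h hcon] at hcon
        exact hcon hw
    · by_contra hcon
      obtain ⟨b, hb⟩ := odd_at hN hp h0m h00 hcon
      omega
  · have h4 := hout V W c hN p hp j (q 1) (q (-1)) (fun h => by have := hq.inj h; omega) (fun i => hd i _)
      (fun i => hd i _) hj hw
    rcases h4.2 with h5 | h5
    · have := hmax _ h5
      omega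
    · have := hkey _ (by omega) h5
      omega

/-- (2) of `S_opp` -/
theorem both (hsa : S_sa) (hsub : S_sub) (htwo : S_two) (hout : S_out) (hN : Net W c) (hp : Line W p) (hq : Line W q)
    (hd : Dis p q) (h0 : One W p (q 0) 0) (hne1 : ∃ k, W (p k) (q 1) ≠ 0) (hne2 : ∃ k, W (p k) (q (-1)) ≠ 0)
    (hpos1 : ∀ k, W (p k) (q 1) ≠ 0 → 0 < k) (hpos : ∀ k, W (p k) (q (-1)) ≠ 0 → 0 < k) : False := by
  have h01 : W (q 0) (q 1) ≠ 0 := (hq.adj _ _).2 (by omega)
  have h0m : W (q 0) (q (-1)) ≠ 0 := (hq.adj _ _).2 (by omega)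
  have h00 : W (p 0) (q 0) ≠ 0 := (h0 0).2 rfl
  obtain ⟨k, hk⟩ := hne1
  obtain ⟨l, hl⟩ := hne2
  obtain ⟨j, hkj, hj, hmax⟩ := exists_max htwo hN hp (fun i => hd i 1) hk
  obtain ⟨m, hlm, hm, hmax2⟩ := exists_max htwo hN hp (fun i => hd i (-1)) hl
  obtain ⟨a, ha⟩ := odd_at hN hp h01 h00 hj
  obtain ⟨b, hb⟩ := odd_at hN hp h0m h00 hm
  have j1 := hpos1 j hj
  have m1 := hpos m hm
  by_cases h3 : 3 ≤ j
  · exact both_aux hsa hsub htwo hout hN hp hq hd h0 h3 hj hmax hpos
  · by_cases h4 : 3 ≤ m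
    · refine both_aux hsa hsub htwo hout hN hp hq.rev (dis_rev' hd) (j := m) ?_ h4 ?_ ?_ ?_
      · simpa using h0
      · exact hm
      · exact hmax2
      · intro k hk
        simp only [neg_neg] at hk
        exact hpos1 k hk
    · have ej : j = 1 := by omega
      have em : m = 1 := by omega
      rw [ej] at hj hmax
      rw [em] at hm hmax2
      have h4 := hout V W c hN p hp 1 (q 1) (q (-1)) (fun h => by have := hq.inj h; omega) (fun i => hd i _)
        (fun i => hd i _) hj hm
      rcases h4.2 with h5 | h5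
      · have := hmax _ h5
        omega
      · have := hmax2 _ h5
        omega

/-- (3), (4), (5) of `S_opp` -/
theorem opp_aux (hsub : S_sub) (htwo : S_two) (hN : Net W c) (hp : Line W p) (hq : Line W q)
    (hd : Dis p q) (h0 : One W p (q 0) 0) (hne1 : ∃ k, W (p k) (q 1) ≠ 0) (hne2 : ∃ k, W (p k) (q (-1)) ≠ 0)
    (hpos1 : ∀ k, W (p k) (q 1) ≠ 0 → 0 < k) (hneg : ∀ k, W (p k) (q (-1)) ≠ 0 → k < 0) :
    ∃ ε η : ℤ, (ε = 1 ∨ ε = -1) ∧ (η = 1 ∨ η = -1) ∧ (∃ j, 3 ≤ j ∧ W (p (ε * j)) (q η) ≠ 0) ∧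
      One W p (q (-η)) (-ε) := by
  have h01 : W (q 0) (q 1) ≠ 0 := (hq.adj _ _).2 (by omega)
  have h0m : W (q 0) (q (-1)) ≠ 0 := (hq.adj _ _).2 (by omega)
  have h00 : W (p 0) (q 0) ≠ 0 := (h0 0).2 rfl
  obtain ⟨k, hk⟩ := hne1
  obtain ⟨l, hl⟩ := hne2
  obtain ⟨j, hkj, hj, hmax⟩ := exists_max htwo hN hp (fun i => hd i 1) hk
  obtain ⟨a, ha⟩ := odd_at hN hp h01 h00 hj
  have j1 := hpos1 j hj
  by_cases h3 : 3 ≤ j
  · refine ⟨1, 1, Or.inl rfl, Or.inl rfl, ⟨j, h3, by rw [one_mul]; exact hj⟩, ?_⟩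
    have hP := lineP hsub hN hp hq hd h0 h3 hj hmax
    have hoffP : Off (sur p 0 j 2 (fun k => q ((k : ℤ) - 1))) (q (-1)) := by
      intro i hi
      rcases P_cases (p := p) (q := q) (j := j) i with ⟨_, h⟩ | ⟨_, h⟩ | ⟨_, h⟩ | ⟨l, _, _, h⟩
      · rw [h] at hi; exact hd _ _ hi
      · rw [h] at hi; have := hq.inj hi; omega
      · rw [h] at hi; have := hq.inj hi; omega
      · rw [h] at hi; exact hd _ _ hi
    have hkey : ∀ i, W (p i) (q (-1)) ≠ 0 → i = -1 := by
      intro i hw
      have hi := hneg i hw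
      have h1 : W (sur p 0 j 2 (fun k => q ((k : ℤ) - 1)) 1) (q (-1)) ≠ 0 := by rw [P_one]; exact h0m
      have h2 : W (sur p 0 j 2 (fun k => q ((k : ℤ) - 1)) i) (q (-1)) ≠ 0 := by rw [P_le (by omega)]; exact hw
      have := htwo V W c hN _ hP (q (-1)) i 1 hoffP h2 h1 (by omega)
      omega
    intro i
    constructor
    · exact hkey i
    · intro hi
      rw [hi, ← hkey l hl]
      have e : (-1 : ℤ) = l := (hkey l hl).symm
      rw [← e] at hl ⊢
      exact hl
  · have hone1 : One W p (q 1) 1 := by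
      intro i
      constructor
      · intro hi
        obtain ⟨b, hb⟩ := odd_at hN hp h01 h00 hi
        have := hpos1 i hi
        have := hmax i hi
        omega
      · intro hi
        rw [hi, show (1 : ℤ) = j by omega]
        exact (show (1 : ℤ) = j by omega) ▸ hj
    by_cases h4 : ∃ i, W (p i) (q (-1)) ≠ 0 ∧ i ≤ -3
    · obtain ⟨i, hi, hi3⟩ := h4
      refine ⟨-1, -1, Or.inr rfl, Or.inr rfl, ⟨-i, by omega, by rw [show (-1 : ℤ) * -i = i by ring]; exact hi⟩, ?_⟩
      rw [neg_neg]
      exact hone1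
    · exfalso
      push Not at h4
      have hkey : ∀ i, W (p i) (q (-1)) ≠ 0 → i = -1 := by
        intro i hi
        obtain ⟨b, hb⟩ := odd_at hN hp h0m h00 hi
        have := hneg i hi
        have := h4 i hi
        omega
      have honem : One W p (q (-1)) (-1) := by
        intro i
        constructor
        · exact hkey i
        · intro hi
          rw [hi]
          have e := hkey l hl
          rw [e] at hl
          exact hl
      have hX : Line W (sur p (-1) 1 3 (fun k => q ((k : ℤ) - 2))) := by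
        refine hsub V W hN.symm p hp (-1) 1 3 (fun k => q ((k : ℤ) - 2)) (by omega) (by omega) ⟨?_, ?_, ?_⟩ ?_
        · intro k _ _ i
          exact hd i _
        · intro k l _ _ _ _ hkl
          have := hq.inj hkl
          omega
        · intro k l _ _ _ _
          rw [hq.adj]
          omega
        · intro k i h1 h2 hi
          have hk : k = 1 ∨ k = 2 ∨ k = 3 := by omega
          rcases hk with rfl | rfl | rfl
          · have e : (((1 : ℕ) : ℤ) - 2) = -1 := by norm_num
            simp only [e]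
            rw [honem i]
            constructor
            · intro h; exact Or.inl ⟨h, trivial⟩
            · rintro (h | h)
              · exact h.1
              · exact absurd h.2 (by decide)
          · have e : (((2 : ℕ) : ℤ) - 2) = 0 := by norm_num
            simp only [e]
            rw [h0 i]
            omega
          · have e : (((3 : ℕ) : ℤ) - 2) = 1 := by norm_num
            simp only [e]
            rw [hone1 i]
            constructor
            · intro h; exact Or.inr ⟨h, trivial⟩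
            · rintro (h | h)
              · exact absurd h.2 (by decide)
              · exact h.1
      have e1 : sur p (-1) 1 3 (fun k => q ((k : ℤ) - 2)) (-1) = p (-1) := sur_le _ _ _ _ _ _ le_rfl
      have e3 : sur p (-1) 1 3 (fun k => q ((k : ℤ) - 2)) 3 = p 1 := by
        have := sur_ge p (-1) 1 3 (fun k => q ((k : ℤ) - 2)) 1 le_rfl
        rw [← this]
        congr 1
      have hoffX : Off (sur p (-1) 1 3 (fun k => q ((k : ℤ) - 2))) (p 0) := by
        intro i hi
        rcases sur_cases p (-1) 1 3 (fun k => q ((k : ℤ) - 2)) i with ⟨hi2, h⟩ | ⟨k, _, _, _, h⟩ | ⟨l, hl, _, h⟩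
        · rw [h] at hi; have := hp.inj hi; omega
        · rw [h] at hi; exact hd _ _ hi.symm
        · rw [h] at hi; have := hp.inj hi; omega
      have := htwo V W c hN _ hX (p 0) (-1) 3 hoffX (by rw [e1, hp.adj]; omega) (by rw [e3, hp.adj]; omega) (by omega)
      omega

/-- job OPP -/
theorem t_opp (hsa : S_sa) (hsub : S_sub) (htwo : S_two) (hout : S_out) : S_opp := by
  intro V W c hN p q hp hq hd hall h0
  have hne : ∀ s, ∃ k, W (p k) (q s) ≠ 0 := by
    intro s
    have := hall s
    unfold Free at this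
    push Not at this
    exact this
  have hp' := hp.rev
  have hd' := dis_rev hd
  have h0' : One W (fun k => p (-k)) (q 0) 0 := by
    have := h0.rev
    rwa [neg_zero] at this
  have hne' : ∀ s, ∃ k, W ((fun k => p (-k)) k) (q s) ≠ 0 := by
    intro s
    obtain ⟨k, hk⟩ := hne s
    exact ⟨-k, by simp only [neg_neg]; exact hk⟩
  have s1 := posneg htwo hout hN hp hq hd h0
  have s2 := posneg htwo hout hN hp hq.rev (dis_rev' hd) (by simpa using h0)
  rcases s1 with s1 | s1 <;> rcases s2 with s2 | s2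
  · exact absurd (both hsa hsub htwo hout hN hp hq hd h0 (hne 1) (hne (-1)) s1 s2) (fun h => h)
  · exact opp_aux hsub htwo hN hp hq hd h0 (hne 1) (hne (-1)) s1 s2
  · obtain ⟨ε, η, h1, h2, ⟨j, h3, h4⟩, h5⟩ := opp_aux hsub htwo hN hp' hq hd' h0' (hne' 1) (hne' (-1))
      (fun k hk => by have := s1 _ hk; omega) (fun k hk => by have := s2 _ hk; omega)
    refine ⟨-ε, η, by omega, h2, ⟨j, h3, ?_⟩, ?_⟩
    · rw [neg_mul]
      exact h4
    · have h6 := h5.rev
      simp only [neg_neg] at h6
      rw [neg_neg]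
      exact h6
  · refine absurd (both hsa hsub htwo hout hN hp' hq hd' h0' (hne' 1) (hne' (-1))
      (fun k hk => by have := s1 _ hk; omega) (fun k hk => by have := s2 _ hk; omega)) (fun h => h)

end Pool.Agent.Q14.BD
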