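import Pool.Agent.Q181.BD.Stm1

/-!
# Project BD (helper181): jobs STAR and FORK
-/

set_option autoImplicit false

namespace Pool.Agent.Q14.BD

open Pool.Agent.Q181.BD

/-- the constant `1 / √2` -/
theorem exists_y {c : ℝ} (hc : c < 3 / Real.sqrt 2) : ∃ y : ℝ, 0 < y ∧ y ^ 2 = 1 / 2 ∧ c < 3 * y := by
  have h2 : 0 < Real.sqrt 2 := Real.sqrt_pos.2 (by norm_num)
  have h3 : Real.sqrt 2 ^ 2 = 2 := Real.sq_sqrt (by norm_num)
  refine ⟨1 / Real.sqrt 2, by positivity, ?_, ?_⟩
  · rw [div_pow, h3, one_pow]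
  · rw [mul_one_div]
    exact hc

/-- geometric sums -/
theorem geo (N : ℕ) : ∑ k : Fin N, (1 / 2 : ℝ) ^ (k : ℕ) = 2 - 2 * (1 / 2) ^ N := by
  induction N with
  | zero => simp
  | succ n ih =>
    rw [Fin.sum_univ_castSucc]
    simp only [Fin.val_castSucc, Fin.val_last]
    rw [ih, pow_succ]
    ring

theorem star_lim {y c : ℝ} (hy : 0 < y) (hc : c < 3 * y)
    (h : ∀ N : ℕ, 8 * y - 4 * y * (1 / 2 : ℝ) ^ N ≤ c * (8 / 3 - (1 / 2) ^ N)) : False := by
  have hd : 0 < 3 * y - c := by linarith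
  have hε : 0 < (8 / 3 * (3 * y - c)) / (4 * y + |c| + 1) := by positivity
  obtain ⟨N, hN⟩ := exists_pow_lt_of_lt_one hε (by norm_num : (1 / 2 : ℝ) < 1)
  rw [lt_div_iff₀ (by positivity)] at hN
  have h1 := h N
  have hp : 0 < (1 / 2 : ℝ) ^ N := by positivity
  have h2 : (1 / 2 : ℝ) ^ N * (4 * y - c) ≤ (1 / 2 : ℝ) ^ N * (4 * y + |c| + 1) := by
    refine mul_le_mul_of_nonneg_left ?_ hp.le
    have := neg_abs_le c
    linarith
  nlinarith

/-- job STAR -/
theorem t_star (ht : S_tree) : S_star := by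
  classical
  intro V W c hN p hp i u w huw hu hw hiu hiw hku hkw
  obtain ⟨y, hy0, hy2, hcy⟩ := exists_y hN.lt
  refine star_lim hy0 hcy fun N => ?_
  -- sides
  obtain ⟨sd, hsd⟩ := hN.side
  have huw0 : W u w = 0 := by
    by_contra h0
    have a1 := hsd _ _ hiu
    have a2 := hsd _ _ hiw
    have a3 := hsd _ _ h0
    revert a1 a2 a3
    cases sd (p i) <;> cases sd u <;> cases sd w <;> simp
  have hpu : W (p (i + 1)) u = 0 := by
    by_contra h0
    have a1 := hN.even hp hiu h0
    rw [show i - (i + 1) = -1 by ring] at a1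
    exact absurd a1 (by decide)
  have hpw : W (p (i + 1)) w = 0 := by
    by_contra h0
    have a1 := hN.even hp hiw h0
    rw [show i - (i + 1) = -1 by ring] at a1
    exact absurd a1 (by decide)
  obtain ⟨lf, hlf⟩ : ∃ lf : Fin 3 → V, lf = ![p (i + 1), u, w] := ⟨_, rfl⟩
  have hi1 : W (p i) (p (i + 1)) ≠ 0 := (hp.adj _ _).2 (Or.inl rfl)
  have hlf1 : ∀ j, W (p i) (lf j) ≠ 0 := by
    intro j
    rw [hlf]
    fin_cases j
    · exact hi1
    · exact hiu
    · exact hiw
  have hlf2 : ∀ j (k : ℤ), k < i → W (p k) (lf j) = 0 := by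
    intro j k hk
    rw [hlf]
    fin_cases j
    · by_contra h0
      rcases (hp.adj _ _).1 h0 with h | h <;> omega
    · exact hku k hk
    · exact hkw k hk
  have hlf3 : ∀ j j', W (lf j) (lf j') = 0 := by
    intro j j'
    rw [hlf]
    fin_cases j <;> fin_cases j'
    · exact hN.loop _
    · exact hpu
    · exact hpw
    · rw [hN.symm]; exact hpu
    · exact hN.loop _
    · exact huw0
    · rw [hN.symm]; exact hpw
    · rw [hN.symm]; exact huw0
    · exact hN.loop _
  have hlf4 : ∀ j (k : ℤ), k ≤ i → p k ≠ lf j := by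
    intro j k hk
    rw [hlf]
    fin_cases j
    · intro h0
      have := hp.inj h0
      omega
    · exact hu k
    · exact hw k
  have hlf5 : Function.Injective lf := by
    intro j j' hjj
    rw [hlf] at hjj
    have d1 : p (i + 1) ≠ u := hu _
    have d2 : p (i + 1) ≠ w := hw _
    fin_cases j <;> fin_cases j' <;> first | rfl | exact absurd hjj d1 | exact absurd hjj d2 | exact absurd hjj.symm d1 | exact absurd hjj.symm d2 | exact absurd hjj huw | exact absurd hjj.symm huw
  obtain ⟨τ, hτ⟩ : ∃ τ : Fin (N + 1) ⊕ Fin 3 → V, τ = Sum.elim (fun k : Fin (N + 1) => p (i - (k : ℕ))) lf := ⟨_, rfl⟩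
  obtain ⟨par, hpar⟩ : ∃ par : Fin (N + 1) ⊕ Fin 3 → Option (Fin (N + 1) ⊕ Fin 3),
    par = Sum.elim (fun k : Fin (N + 1) => Fin.cases none (fun j : Fin N => some (Sum.inl j.castSucc)) k) (fun _ : Fin 3 => some (Sum.inl 0)) := ⟨_, rfl⟩
  obtain ⟨rk, hrk⟩ : ∃ rk : Fin (N + 1) ⊕ Fin 3 → ℕ, rk = Sum.elim (fun k : Fin (N + 1) => (k : ℕ)) (fun _ : Fin 3 => 1) := ⟨_, rfl⟩
  obtain ⟨h, hh⟩ : ∃ h : Fin (N + 1) ⊕ Fin 3 → ℝ, h = Sum.elim (fun k : Fin (N + 1) => y ^ (k : ℕ)) (fun _ : Fin 3 => 2 * y / 3) := ⟨_, rfl⟩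
  have par0 : par (Sum.inl 0) = none := by rw [hpar]; rfl
  have parS : ∀ j : Fin N, par (Sum.inl j.succ) = some (Sum.inl j.castSucc) := fun j => by rw [hpar]; rfl
  have parL : ∀ j : Fin 3, par (Sum.inr j) = some (Sum.inl 0) := fun j => by rw [hpar]; rfl
  have τl : ∀ k : Fin (N + 1), τ (Sum.inl k) = p (i - (k : ℕ)) := fun k => by rw [hτ]; rfl
  have τr : ∀ j : Fin 3, τ (Sum.inr j) = lf j := fun j => by rw [hτ]; rfl
  have hl : ∀ k : Fin (N + 1), h (Sum.inl k) = y ^ (k : ℕ) := fun k => by rw [hh]; rfl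
  have hr : ∀ j : Fin 3, h (Sum.inr j) = 2 * y / 3 := fun j => by rw [hh]; rfl
  have h1 := ht V W c hN (Fin (N + 1) ⊕ Fin 3) τ par rk h ?_ ?_ ?_ ?_ ?_
  · rw [Fintype.sum_sum_type, Fintype.sum_sum_type, Fin.sum_univ_succ, par0, Option.elim_none, zero_add] at h1
    simp only [parS, parL, Option.elim_some, hl, hr, Fin.val_succ, Fin.val_castSucc, Fin.val_zero, pow_zero, mul_one,
      Finset.sum_const, Finset.card_univ, Fintype.card_fin, nsmul_eq_mul] at h1
    have e1 : ∑ j : Fin N, y ^ ((j : ℕ) + 1) * y ^ (j : ℕ) = y * ∑ j : Fin N, (1 / 2 : ℝ) ^ (j : ℕ) := by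
      rw [Finset.mul_sum]
      refine Finset.sum_congr rfl fun j _ => ?_
      rw [← hy2, ← pow_mul]
      ring
    have e2 : ∑ k : Fin (N + 1), (y ^ (k : ℕ)) ^ 2 = ∑ k : Fin (N + 1), (1 / 2 : ℝ) ^ (k : ℕ) := by
      refine Finset.sum_congr rfl fun j _ => ?_
      rw [← hy2, ← pow_mul, ← pow_mul]
      ring
    rw [e1, e2, geo, geo, pow_succ] at h1
    have e3 : ((3 : ℕ) : ℝ) * (2 * y / 3) ^ 2 = 2 / 3 := by
      push_cast
      have : (3 : ℝ) * (2 * y / 3) ^ 2 = 4 / 3 * y ^ 2 := by ring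
      rw [this, hy2]
      norm_num
    rw [e3] at h1
    push_cast at h1
    linarith
  · -- injective
    rw [hτ]
    refine Function.Injective.sumElim ?_ hlf5 ?_
    · intro k k' hk
      have := hp.inj hk
      exact Fin.ext (by omega)
    · intro k j
      exact hlf4 j _ (by omega)
  · intro x z hxz
    rw [hrk]
    rcases x with k | j
    · induction k using Fin.cases with
      | zero => rw [par0] at hxz; simp at hxz
      | succ j =>
        rw [parS] at hxz
        have e : z = Sum.inl j.castSucc := by simpa using hxz.symm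
        rw [e]
        simp
    · rw [parL] at hxz
      have e : z = Sum.inl 0 := by simpa using hxz.symm
      rw [e]
      simp
  · intro x z hxz
    rcases x with k | j
    · induction k using Fin.cases with
      | zero => rw [par0] at hxz; simp at hxz
      | succ j =>
        rw [parS] at hxz
        have e : z = Sum.inl j.castSucc := by simpa using hxz.symm
        rw [e, τl, τl, hp.adj]
        left
        simp only [Fin.val_succ, Fin.val_castSucc]
        push_cast
        ring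
    · rw [parL] at hxz
      have e : z = Sum.inl 0 := by simpa using hxz.symm
      rw [e, τl, τr, hN.symm]
      simpa using hlf1 j
  · intro x z hxz
    rcases x with k | j <;> rcases z with k' | j'
    · rw [τl, τl, hp.adj] at hxz
      rcases hxz with h0 | h0
      · -- i - k' = i - k + 1, k = k' + 1
        left
        have e : k = (⟨k', by omega⟩ : Fin N).succ := Fin.ext (by simp only [Fin.val_succ]; omega)
        rw [e, parS]
        rfl
      · right
        have e : k' = (⟨k, by omega⟩ : Fin N).succ := Fin.ext (by simp only [Fin.val_succ]; omega)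
        rw [e, parS]
        rfl
    · rw [τl, τr] at hxz
      right
      rw [parL]
      have e : (k : ℕ) = 0 := by
        by_contra h0
        exact hxz (hlf2 j' _ (by omega))
      have : k = 0 := Fin.ext (by simpa using e)
      rw [this]
    · rw [τl, τr] at hxz
      left
      rw [parL]
      have e : (k' : ℕ) = 0 := by
        by_contra h0
        refine hxz ?_
        rw [hN.symm]
        exact hlf2 j _ (by omega)
      have : k' = 0 := Fin.ext (by simpa using e)
      rw [this]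
    · rw [τr, τr] at hxz
      exact absurd (hlf3 j j') hxz
  · intro x
    rcases x with k | j
    · rw [hl]; positivity
    · rw [hr]; positivity

/-- parents on the segment of the fork -/
def pr9 : Fin 9 → Option (Fin 9) := ![some 1, some 2, some 3, some 4, none, some 4, some 5, some 6, some 7]

/-- distances to the centre -/
def ex9 : Fin 9 → ℕ := ![4, 3, 2, 1, 0, 1, 2, 3, 4]

theorem pr9_adj : ∀ k l : Fin 9, ((l : ℕ) = k + 1 ∨ (k : ℕ) = l + 1) → (pr9 k = some l ∨ pr9 l = some k) := by decide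

theorem pr9_rk : ∀ k l : Fin 9, pr9 k = some l → ex9 l < ex9 k ∧ ((l : ℕ) = k + 1 ∨ (k : ℕ) = l + 1) := by decide

/-- job FORK -/
theorem t_fork (ht : S_tree) : S_fork := by
  classical
  intro V W c hN p hp i u a b hu hui hab ha hb hua hub hfa hfb
  obtain ⟨y, hy0, hy2, hcy⟩ := exists_y hN.lt
  obtain ⟨sd, hsd⟩ := hN.side
  have hab0 : W a b = 0 := by
    by_contra h0
    have a1 := hsd _ _ hua
    have a2 := hsd _ _ hub
    have a3 := hsd _ _ h0
    revert a1 a2 a3
    cases sd u <;> cases sd a <;> cases sd b <;> simp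
  have hne1 : u ≠ a := fun h0 => hua (by rw [← h0]; exact hN.loop u)
  have hne2 : u ≠ b := fun h0 => hub (by rw [← h0]; exact hN.loop u)
  obtain ⟨lf, hlf⟩ : ∃ lf : Fin 3 → V, lf = ![u, a, b] := ⟨_, rfl⟩
  have hlf0 : lf 0 = u := by rw [hlf]; rfl
  have hlf1 : lf 1 = a := by rw [hlf]; rfl
  have hlf2 : lf 2 = b := by rw [hlf]; rfl
  obtain ⟨τ, hτ⟩ : ∃ τ : Fin 9 ⊕ Fin 3 → V, τ = Sum.elim (fun k : Fin 9 => p (i + (k : ℕ) - 4)) lf := ⟨_, rfl⟩
  obtain ⟨par, hpar⟩ : ∃ par : Fin 9 ⊕ Fin 3 → Option (Fin 9 ⊕ Fin 3),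
    par = Sum.elim (fun k : Fin 9 => (pr9 k).map Sum.inl) ![some (Sum.inl 4), some (Sum.inr 0), some (Sum.inr 0)] := ⟨_, rfl⟩
  obtain ⟨rk, hrk⟩ : ∃ rk : Fin 9 ⊕ Fin 3 → ℕ, rk = Sum.elim (fun k : Fin 9 => ex9 k) ![1, 2, 2] := ⟨_, rfl⟩
  obtain ⟨h, hh⟩ : ∃ h : Fin 9 ⊕ Fin 3 → ℝ, h = Sum.elim (fun k : Fin 9 => y ^ ex9 k) ![6 * y / 5, 2 / 5, 2 / 5] := ⟨_, rfl⟩
  have τl : ∀ k : Fin 9, τ (Sum.inl k) = p (i + (k : ℕ) - 4) := fun k => by rw [hτ]; rfl
  have τr : ∀ j : Fin 3, τ (Sum.inr j) = lf j := fun j => by rw [hτ]; rfl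
  have pl : ∀ k : Fin 9, par (Sum.inl k) = (pr9 k).map Sum.inl := fun k => by rw [hpar]; rfl
  have p0 : par (Sum.inr 0) = some (Sum.inl 4) := by rw [hpar]; rfl
  have p1 : par (Sum.inr 1) = some (Sum.inr 0) := by rw [hpar]; rfl
  have p2 : par (Sum.inr 2) = some (Sum.inr 0) := by rw [hpar]; rfl
  have h1 := ht V W c hN (Fin 9 ⊕ Fin 3) τ par rk h ?_ ?_ ?_ ?_ ?_
  · rw [Fintype.sum_sum_type, Fintype.sum_sum_type, Fin.sum_univ_three, Fin.sum_univ_three, p0, p1, p2] at h1
    simp only [pl, hh] at h1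
    have e1 : ∑ k : Fin 9, Option.elim ((pr9 k).map (Sum.inl : Fin 9 → Fin 9 ⊕ Fin 3)) 0
        (fun z => y ^ ex9 k * Sum.elim (fun k : Fin 9 => y ^ ex9 k) ![6 * y / 5, 2 / 5, 2 / 5] z) = 15 / 4 * y := by
      simp only [Fin.sum_univ_succ, pr9, ex9]
      simp
      have e3 : y ^ 3 = y / 2 := by rw [show y ^ 3 = y ^ 2 * y by ring, hy2]; ring
      have e4 : y ^ 4 = 1 / 4 := by rw [show y ^ 4 = (y ^ 2) ^ 2 by ring, hy2]; norm_num
      rw [e4, e3, hy2]
      ring
    have e2 : ∑ k : Fin 9, (y ^ ex9 k) ^ 2 = 23 / 8 := by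
      simp only [Fin.sum_univ_succ, ex9]
      simp
      have e3 : y ^ 3 = y / 2 := by rw [show y ^ 3 = y ^ 2 * y by ring, hy2]; ring
      have e4 : y ^ 4 = 1 / 4 := by rw [show y ^ 4 = (y ^ 2) ^ 2 by ring, hy2]; norm_num
      have e8 : (y / 2) ^ 2 = 1 / 8 := by rw [div_pow, hy2]; norm_num
      rw [e4, e3, e8, hy2]
      norm_num
    simp only [Sum.elim_inl, Sum.elim_inr, Option.elim_some] at h1 e1
    rw [e1, e2] at h1
    have e5 : ex9 4 = 0 := rfl
    simp [e5] at h1
    have e6 : (6 * y / 5) ^ 2 = 18 / 25 := by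
      have : (6 * y / 5) ^ 2 = 36 / 25 * y ^ 2 := by ring
      rw [this, hy2]
      norm_num
    rw [e6] at h1
    nlinarith
  · rw [hτ]
    refine Function.Injective.sumElim ?_ ?_ ?_
    · intro k k' hk
      have := hp.inj hk
      exact Fin.ext (by omega)
    · intro j j' hjj
      rw [hlf] at hjj
      fin_cases j <;> fin_cases j' <;> first | rfl | exact absurd hjj hne1 | exact absurd hjj hne2 | exact absurd hjj.symm hne1 | exact absurd hjj.symm hne2 | exact absurd hjj hab | exact absurd hjj.symm hab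
    · intro k j
      rw [hlf]
      fin_cases j
      · exact hu _
      · exact ha _
      · exact hb _
  · intro x z hxz
    rw [hrk]
    rcases x with k | j
    · rw [pl] at hxz
      obtain ⟨l, hl, rfl⟩ := Option.map_eq_some_iff.1 hxz
      exact (pr9_rk k l hl).1
    · fin_cases j
      · have e : z = Sum.inl 4 := by
          have := p0.symm.trans hxz
          simpa using this.symm
        rw [e]
        decide
      · have e : z = Sum.inr 0 := by
          have := p1.symm.trans hxz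
          simpa using this.symm
        rw [e]
        decide
      · have e : z = Sum.inr 0 := by
          have := p2.symm.trans hxz
          simpa using this.symm
        rw [e]
        decide
  · intro x z hxz
    rcases x with k | j
    · rw [pl] at hxz
      obtain ⟨l, hl, rfl⟩ := Option.map_eq_some_iff.1 hxz
      rw [τl, τl, hp.adj]
      have := (pr9_rk k l hl).2
      omega
    · fin_cases j
      · have e : z = Sum.inl 4 := by
          have := p0.symm.trans hxz
          simpa using this.symm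
        rw [e, τl, hN.symm]
        have e2 : τ (Sum.inr 0) = u := by rw [τr, hlf0]
        refine ne_of_eq_of_ne (congrArg (fun v => W (p (i + ((4 : Fin 9) : ℕ) - 4)) v) e2) ?_
        rw [hui]
        simp
      · have e : z = Sum.inr 0 := by
          have := p1.symm.trans hxz
          simpa using this.symm
        rw [e, τr 0, hlf0, hN.symm]
        have e2 : τ (Sum.inr 1) = a := by rw [τr, hlf1]
        exact ne_of_eq_of_ne (congrArg (fun v => W u v) e2) hua
      · have e : z = Sum.inr 0 := by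
          have := p2.symm.trans hxz
          simpa using this.symm
        rw [e, τr 0, hlf0, hN.symm]
        have e2 : τ (Sum.inr 2) = b := by rw [τr, hlf2]
        exact ne_of_eq_of_ne (congrArg (fun v => W u v) e2) hub
  · have key : ∀ (k : Fin 9) (j : Fin 3), W (p (i + (k : ℕ) - 4)) (lf j) ≠ 0 → j = 0 ∧ k = 4 := by
      intro k j hkj
      rw [hlf] at hkj
      fin_cases j
      · have h0 := (hui _).1 hkj
        refine ⟨rfl, Fin.ext ?_⟩
        show (k : ℕ) = 4
        omega
      · exact absurd (hfa _) hkj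
      · exact absurd (hfb _) hkj
    have key2 : ∀ j j' : Fin 3, W (lf j) (lf j') ≠ 0 → (j = 0 ∧ j' ≠ 0) ∨ (j' = 0 ∧ j ≠ 0) := by
      intro j j' hjj
      rw [hlf] at hjj
      fin_cases j <;> fin_cases j'
      · exact absurd (hN.loop _) hjj
      · left; decide
      · left; decide
      · right; decide
      · exact absurd (hN.loop _) hjj
      · exact absurd hab0 hjj
      · right; decide
      · exact absurd (by rw [hN.symm]; exact hab0) hjj
      · exact absurd (hN.loop _) hjj
    have key3 : ∀ j : Fin 3, j ≠ 0 → par (Sum.inr j) = some (Sum.inr 0) := by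
      intro j hj
      fin_cases j
      · exact absurd rfl hj
      · exact p1
      · exact p2
    intro x z hxz
    rcases x with k | j <;> rcases z with k' | j'
    · rw [τl, τl, hp.adj] at hxz
      rw [pl, pl]
      rcases pr9_adj k k' (by omega) with h0 | h0
      · left; rw [h0]; rfl
      · right; rw [h0]; rfl
    · rw [τl, τr] at hxz
      obtain ⟨rfl, rfl⟩ := key k j' hxz
      exact Or.inr p0
    · rw [τl, τr, hN.symm] at hxz
      obtain ⟨rfl, rfl⟩ := key k' j hxz
      exact Or.inl p0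
    · rw [τr, τr] at hxz
      rcases key2 j j' hxz with ⟨rfl, h0⟩ | ⟨rfl, h0⟩
      · exact Or.inr (key3 j' h0)
      · exact Or.inl (key3 j h0)
  · intro x
    rw [hh]
    rcases x with k | j
    · simp only [Sum.elim_inl]; positivity
    · fin_cases j
      · show 0 ≤ 6 * y / 5
        positivity
      · show (0 : ℝ) ≤ 2 / 5
        norm_num
      · show (0 : ℝ) ≤ 2 / 5
        norm_num

end Pool.Agent.Q14.BD
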