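import Pool.Agent.Q14.BD.Tree
import Pool.Agent.Q14.BD.Star

/-!
# Project BD (helper181): job POS
-/

set_option autoImplicit false

namespace Pool.Agent.Q14.BD

open Pool.Agent.Q181.BD

theorem sgn_pos {x : ℤ} (h : x ≠ 0) : ∃ s : ℤ, (s = 1 ∨ s = -1) ∧ 1 ≤ s * x := by
  rcases lt_or_gt_of_ne h with h0 | h0
  · exact ⟨-1, Or.inr rfl, by omega⟩
  · exact ⟨1, Or.inl rfl, by omega⟩

/-- job POS -/
theorem t_pos : S_pos := by
  classical
  intro V W c hN p hp i u hu hui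
  by_contra hcon
  push Not at hcon
  obtain ⟨y, hy0, hy2, hcy⟩ := exists_y hN.lt
  -- the edges
  have w01 : W (p (i - 2)) (p (i - 1)) ≠ 0 := (hp.adj _ _).2 (by omega)
  have w12 : W (p (i - 1)) (p i) ≠ 0 := (hp.adj _ _).2 (by omega)
  have w23 : W (p i) (p (i + 1)) ≠ 0 := (hp.adj _ _).2 (by omega)
  have w34 : W (p (i + 1)) (p (i + 2)) ≠ 0 := (hp.adj _ _).2 (by omega)
  have w35 : W (p (i + 1)) u ≠ 0 := (hui _).2 (by omega)
  have w15 : W (p (i - 1)) u ≠ 0 := (hui _).2 (by omega)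
  have z02 : W (p (i - 2)) (p i) = 0 := by
    by_contra h0
    rcases (hp.adj _ _).1 h0 with h | h <;> omega
  have z03 : W (p (i - 2)) (p (i + 1)) = 0 := by
    by_contra h0
    rcases (hp.adj _ _).1 h0 with h | h <;> omega
  have z04 : W (p (i - 2)) (p (i + 2)) = 0 := by
    by_contra h0
    rcases (hp.adj _ _).1 h0 with h | h <;> omega
  have z05 : W (p (i - 2)) u = 0 := by
    by_contra h0
    rcases (hui _).1 h0 with h | h <;> omega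
  have z13 : W (p (i - 1)) (p (i + 1)) = 0 := by
    by_contra h0
    rcases (hp.adj _ _).1 h0 with h | h <;> omega
  have z14 : W (p (i - 1)) (p (i + 2)) = 0 := by
    by_contra h0
    rcases (hp.adj _ _).1 h0 with h | h <;> omega
  have z24 : W (p i) (p (i + 2)) = 0 := by
    by_contra h0
    rcases (hp.adj _ _).1 h0 with h | h <;> omega
  have z25 : W (p i) u = 0 := by
    by_contra h0
    rcases (hui _).1 h0 with h | h <;> omega
  have z45 : W (p (i + 2)) u = 0 := by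
    by_contra h0
    rcases (hui _).1 h0 with h | h <;> omega
  obtain ⟨s01, a01, b01⟩ := sgn_pos w01
  obtain ⟨s12, a12, b12⟩ := sgn_pos w12
  obtain ⟨s23, a23, b23⟩ := sgn_pos w23
  obtain ⟨s34, a34, b34⟩ := sgn_pos w34
  obtain ⟨s15, a15, b15⟩ := sgn_pos w15
  have b35 : 1 ≤ s12 * s15 * s23 * W (p (i + 1)) u := by
    have h0 : 0 ≤ W (p (i - 1)) (p i) * W (p i) (p (i + 1)) * W (p (i + 1)) u * W (p (i - 1)) u := by
      rw [hN.symm (p (i - 1)) u]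
      exact hcon
    have e1 : (s12 * s15 * s23 * W (p (i + 1)) u) * ((s12 * W (p (i - 1)) (p i)) * (s23 * W (p i) (p (i + 1))) *
        (s15 * W (p (i - 1)) u)) = s12 ^ 2 * s15 ^ 2 * s23 ^ 2 *
        (W (p (i - 1)) (p i) * W (p i) (p (i + 1)) * W (p (i + 1)) u * W (p (i - 1)) u) := by ring
    have h1 : 0 < (s12 * W (p (i - 1)) (p i)) * (s23 * W (p i) (p (i + 1))) * (s15 * W (p (i - 1)) u) := by
      have i1 : 0 < s12 * W (p (i - 1)) (p i) := by omega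
      have i2 : 0 < s23 * W (p i) (p (i + 1)) := by omega
      have i3 : 0 < s15 * W (p (i - 1)) u := by omega
      positivity
    have h2 : 0 ≤ (s12 * s15 * s23 * W (p (i + 1)) u) * ((s12 * W (p (i - 1)) (p i)) * (s23 * W (p i) (p (i + 1))) *
        (s15 * W (p (i - 1)) u)) := by
      rw [e1]
      positivity
    have h3 : 0 ≤ s12 * s15 * s23 * W (p (i + 1)) u := nonneg_of_mul_nonneg_left h2 h1
    have h4 : s12 * s15 * s23 * W (p (i + 1)) u ≠ 0 := by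
      refine mul_ne_zero (mul_ne_zero (mul_ne_zero ?_ ?_) ?_) w35
      · rcases a12 with h | h <;> rw [h] <;> decide
      · rcases a15 with h | h <;> rw [h] <;> decide
      · rcases a23 with h | h <;> rw [h] <;> decide
    omega
  obtain ⟨τ, hτ⟩ : ∃ τ : Fin 6 → V, τ = ![p (i - 2), p (i - 1), p i, p (i + 1), p (i + 2), u] := ⟨_, rfl⟩
  obtain ⟨F, hF⟩ : ∃ F : Fin 6 → ℝ, F = ![(s01 * s12 : ℝ) * y, (s12 : ℝ), 4 * y / 3, (s23 : ℝ), (s23 * s34 : ℝ) * y,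
    (s12 * s15 : ℝ) * (4 * y / 3)] := ⟨_, rfl⟩
  have hinj : Function.Injective τ := by
    intro k l hkl
    rw [hτ] at hkl
    have d1 : ∀ k l : ℤ, k ≠ l → p k ≠ p l := fun k l h h0 => h (hp.inj h0)
    have d2 : ∀ k : ℤ, p k ≠ u := hu
    fin_cases k <;> fin_cases l <;> first
      | rfl
      | exact absurd hkl (d1 _ _ (by omega))
      | exact absurd hkl (d2 _)
      | exact absurd hkl.symm (d2 _)
  have h1 := form_inj hN τ hinj F
  have t0 : τ 0 = p (i - 2) := by rw [hτ]; rfl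
  have t1 : τ 1 = p (i - 1) := by rw [hτ]; rfl
  have t2 : τ 2 = p i := by rw [hτ]; rfl
  have t3 : τ 3 = p (i + 1) := by rw [hτ]; rfl
  have t4 : τ 4 = p (i + 2) := by rw [hτ]; rfl
  have t5 : τ 5 = u := by rw [hτ]; rfl
  have f0 : F 0 = (s01 * s12 : ℝ) * y := by rw [hF]; rfl
  have f1 : F 1 = (s12 : ℝ) := by rw [hF]; rfl
  have f2 : F 2 = 4 * y / 3 := by rw [hF]; rfl
  have f3 : F 3 = (s23 : ℝ) := by rw [hF]; rfl
  have f4 : F 4 = (s23 * s34 : ℝ) * y := by rw [hF]; rfl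
  have f5 : F 5 = (s12 * s15 : ℝ) * (4 * y / 3) := by rw [hF]; rfl
  have sy : ∀ a b, W a b = W b a := hN.symm
  simp only [Fin.sum_univ_six, t0, t1, t2, t3, t4, t5, f0, f1, f2, f3, f4, f5] at h1
  rw [hN.loop (p (i - 2)), hN.loop (p (i - 1)), hN.loop (p i), hN.loop (p (i + 1)), hN.loop (p (i + 2)), hN.loop u,
    z02, z03, z04, z05, z13, z14, z24, z25, z45,
    sy (p i) (p (i - 2)), sy (p (i + 1)) (p (i - 2)), sy (p (i + 2)) (p (i - 2)), sy u (p (i - 2)),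
    sy (p (i + 1)) (p (i - 1)), sy (p (i + 2)) (p (i - 1)), sy (p (i + 2)) (p i), sy u (p i), sy u (p (i + 2)),
    z02, z03, z04, z05, z13, z14, z24, z25, z45,
    sy (p (i - 1)) (p (i - 2)), sy (p i) (p (i - 1)), sy (p (i + 1)) (p i), sy (p (i + 2)) (p (i + 1)),
    sy u (p (i + 1)), sy u (p (i - 1))] at h1
  have r01 : (1 : ℝ) ≤ s01 * W (p (i - 2)) (p (i - 1)) := by exact_mod_cast b01
  have r12 : (1 : ℝ) ≤ s12 * W (p (i - 1)) (p i) := by exact_mod_cast b12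
  have r23 : (1 : ℝ) ≤ s23 * W (p i) (p (i + 1)) := by exact_mod_cast b23
  have r34 : (1 : ℝ) ≤ s34 * W (p (i + 1)) (p (i + 2)) := by exact_mod_cast b34
  have r15 : (1 : ℝ) ≤ s15 * W (p (i - 1)) u := by exact_mod_cast b15
  have r35 : (1 : ℝ) ≤ s12 * s15 * s23 * W (p (i + 1)) u := by exact_mod_cast b35
  have q01 : (s01 : ℝ) ^ 2 = 1 := by rcases a01 with h | h <;> rw [h] <;> norm_num
  have q12 : (s12 : ℝ) ^ 2 = 1 := by rcases a12 with h | h <;> rw [h] <;> norm_num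
  have q23 : (s23 : ℝ) ^ 2 = 1 := by rcases a23 with h | h <;> rw [h] <;> norm_num
  have q34 : (s34 : ℝ) ^ 2 = 1 := by rcases a34 with h | h <;> rw [h] <;> norm_num
  have q15 : (s15 : ℝ) ^ 2 = 1 := by rcases a15 with h | h <;> rw [h] <;> norm_num
  obtain ⟨W01, hW01⟩ : ∃ x : ℝ, x = W (p (i - 2)) (p (i - 1)) := ⟨_, rfl⟩
  obtain ⟨W12, hW12⟩ : ∃ x : ℝ, x = W (p (i - 1)) (p i) := ⟨_, rfl⟩
  obtain ⟨W23, hW23⟩ : ∃ x : ℝ, x = W (p i) (p (i + 1)) := ⟨_, rfl⟩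
  obtain ⟨W34, hW34⟩ : ∃ x : ℝ, x = W (p (i + 1)) (p (i + 2)) := ⟨_, rfl⟩
  obtain ⟨W15, hW15⟩ : ∃ x : ℝ, x = W (p (i - 1)) u := ⟨_, rfl⟩
  obtain ⟨W35, hW35⟩ : ∃ x : ℝ, x = W (p (i + 1)) u := ⟨_, rfl⟩
  rw [← hW01, ← hW12, ← hW23, ← hW34, ← hW15, ← hW35] at h1
  rw [← hW01] at r01
  rw [← hW12] at r12
  rw [← hW23] at r23
  rw [← hW34] at r34
  rw [← hW15] at r15
  rw [← hW35] at r35
  have eR : (s01 * s12 * y : ℝ) ^ 2 + (s12 : ℝ) ^ 2 + (4 * y / 3) ^ 2 + (s23 : ℝ) ^ 2 + (s23 * s34 * y : ℝ) ^ 2 +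
      (s12 * s15 * (4 * y / 3) : ℝ) ^ 2 = 43 / 9 := by
    have e : (s01 * s12 * y : ℝ) ^ 2 + (s12 : ℝ) ^ 2 + (4 * y / 3) ^ 2 + (s23 : ℝ) ^ 2 + (s23 * s34 * y : ℝ) ^ 2 +
      (s12 * s15 * (4 * y / 3) : ℝ) ^ 2 = (s01 : ℝ) ^ 2 * (s12 : ℝ) ^ 2 * y ^ 2 + (s12 : ℝ) ^ 2 + 16 / 9 * y ^ 2 +
      (s23 : ℝ) ^ 2 + (s23 : ℝ) ^ 2 * (s34 : ℝ) ^ 2 * y ^ 2 + (s12 : ℝ) ^ 2 * (s15 : ℝ) ^ 2 * (16 / 9 * y ^ 2) := by ring
    rw [e, q01, q12, q23, q34, q15, hy2]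
    norm_num
  rw [eR] at h1
  have m01 := mul_le_mul_of_nonneg_right r01 hy0.le
  have m12 := mul_le_mul_of_nonneg_right r12 hy0.le
  have m23 := mul_le_mul_of_nonneg_right r23 hy0.le
  have m34 := mul_le_mul_of_nonneg_right r34 hy0.le
  have m15 := mul_le_mul_of_nonneg_right r15 hy0.le
  have m35 := mul_le_mul_of_nonneg_right r35 hy0.le
  have eL : (44 / 3) * y ≤ 2 * ((s12 : ℝ) ^ 2 * (s01 * W01 * y)) + 8 / 3 * (s12 * W12 * y) + 8 / 3 * (s23 * W23 * y) +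
      2 * ((s23 : ℝ) ^ 2 * (s34 * W34 * y)) + 8 / 3 * ((s12 : ℝ) ^ 2 * (s15 * W15 * y)) +
      8 / 3 * (s12 * s15 * s23 * W35 * y) := by
    rw [q12, q23]
    linarith
  have eLR : 2 * ((s12 : ℝ) ^ 2 * (s01 * W01 * y)) + 8 / 3 * (s12 * W12 * y) + 8 / 3 * (s23 * W23 * y) +
      2 * ((s23 : ℝ) ^ 2 * (s34 * W34 * y)) + 8 / 3 * ((s12 : ℝ) ^ 2 * (s15 * W15 * y)) +
      8 / 3 * (s12 * s15 * s23 * W35 * y) ≤ c * (43 / 9) := by
    refine le_trans (le_of_eq ?_) h1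
    push_cast
    ring
  nlinarith

end Pool.Agent.Q14.BD
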