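import Pool.Agent.Q181.BD.Stm1

/-!
# Project BD (helper181): job TREE
-/

set_option autoImplicit false

namespace Pool.Agent.Q14.BD

open Pool.Agent.Q181.BD

/-- the quadratic form along an injective family of vertices -/
theorem form_inj {V ω : Type} [Fintype ω] {W : V → V → ℤ} {c : ℝ} (hN : Net W c)
    (τ : ω → V) (hτ : Function.Injective τ) (F : ω → ℝ) :
    ∑ p, ∑ q, (W (τ p) (τ q) : ℝ) * F p * F q ≤ c * ∑ p, F p ^ 2 := by
  classical
  let s : Finset V := Finset.univ.image τ
  let f : V → ℝ := fun v => ∑ p, if τ p = v then F p else 0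
  have hf : ∀ p, f (τ p) = F p := by
    intro p
    simp only [f]
    rw [Finset.sum_eq_single p]
    · simp
    · intro q _ hq
      rw [if_neg (fun h => hq (hτ h))]
    · simp
  have hsum : ∀ g : V → ℝ, ∑ u ∈ s, g u = ∑ p, g (τ p) := by
    intro g
    simp only [s]
    rw [Finset.sum_image (fun x _ y _ h => hτ h)]
  have h1 := hN.form s f
  rw [hsum, hsum] at h1
  simp only [hf, hsum] at h1
  exact h1

/-- signs on a forest -/
theorem signs {V ω : Type} (W : V → V → ℤ) (τ : ω → V) (par : ω → Option ω) (rk : ω → ℕ)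
    (hrk : ∀ x y, par x = some y → rk y < rk x) (hW : ∀ x y, par x = some y → W (τ x) (τ y) ≠ 0) (n : ℕ) :
    ∃ ε : ω → ℤ, (∀ x, ε x = 1 ∨ ε x = -1) ∧
      ∀ x y, rk x < n → par x = some y → 0 < ε x * ε y * W (τ x) (τ y) := by
  classical
  induction n with
  | zero => exact ⟨fun _ => 1, fun _ => Or.inl rfl, fun x y h => absurd h (Nat.not_lt_zero _)⟩
  | succ n ih =>
    obtain ⟨ε, h1, h2⟩ := ih
    have h3 : ∀ x, rk x = n → ∃ s : ℤ, (s = 1 ∨ s = -1) ∧ ∀ y, par x = some y → 0 < s * ε y * W (τ x) (τ y) := by
      intro x _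
      cases hp : par x with
      | none => exact ⟨1, Or.inl rfl, fun y hy => by simp at hy⟩
      | some y =>
        have h0 : ε y * W (τ x) (τ y) ≠ 0 := by
          have := hW x y hp
          rcases h1 y with h | h <;> rw [h] <;> simpa using this
        rcases lt_or_gt_of_ne h0 with h | h
        · refine ⟨-1, Or.inr rfl, fun z hz => ?_⟩
          have e : y = z := by simpa using hz
          rw [← e]
          linarith
        · refine ⟨1, Or.inl rfl, fun z hz => ?_⟩
          have e : y = z := by simpa using hz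
          rw [← e]
          linarith
    choose! s hs1 hs2 using h3
    refine ⟨fun x => if rk x = n then s x else ε x, fun x => ?_, fun x y hx hxy => ?_⟩
    · simp only
      split_ifs with h
      · exact hs1 x h
      · exact h1 x
    · simp only
      have hy := hrk x y hxy
      rw [if_neg (show ¬ rk y = n by omega)]
      by_cases h : rk x = n
      · rw [if_pos h]
        exact hs2 x h y hxy
      · rw [if_neg h]
        exact h2 x y (by omega) hxy

/-- job TREE -/
theorem t_tree : S_tree := by
  classical
  intro V W c hN ω _ _ τ par rk h hτ hrk hW hadj hh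
  obtain ⟨ε, h1, h2⟩ := signs W τ par rk hrk hW (Finset.univ.sup rk + 1)
  have h3 : ∀ x y, par x = some y → 0 < ε x * ε y * W (τ x) (τ y) := fun x y hxy =>
    h2 x y (Nat.lt_succ_of_le (Finset.le_sup (Finset.mem_univ x))) hxy
  have h4 := form_inj hN τ hτ (fun x => (ε x : ℝ) * h x)
  have h5 : ∑ x, ((ε x : ℝ) * h x) ^ 2 = ∑ x, h x ^ 2 := by
    refine Finset.sum_congr rfl fun x _ => ?_
    rcases h1 x with e | e <;> rw [e] <;> push_cast <;> ring
  rw [h5] at h4
  refine le_trans ?_ h4
  -- the terms of the form
  obtain ⟨t, ht⟩ : ∃ t : ω → ω → ℝ, t = fun x y => (W (τ x) (τ y) : ℝ) * ((ε x : ℝ) * h x) * ((ε y : ℝ) * h y) := ⟨_, rfl⟩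
  have hsymm : ∀ x y, t x y = t y x := by
    intro x y
    rw [ht]
    simp only
    rw [hN.symm (τ x) (τ y)]
    ring
  have hdec : ∀ x y, t x y = (if par x = some y then t x y else 0) + (if par y = some x then t y x else 0) := by
    intro x y
    by_cases hxy : par x = some y
    · have hyx : ¬ par y = some x := by
        intro h6
        have := hrk x y hxy
        have := hrk y x h6
        omega
      rw [if_pos hxy, if_neg hyx, add_zero]
    · rw [if_neg hxy, zero_add]
      by_cases hyx : par y = some x
      · rw [if_pos hyx, hsymm]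
      · rw [if_neg hyx, ht]
        simp only
        have h0 : W (τ x) (τ y) = 0 := by
          by_contra hcon
          rcases hadj x y hcon with h6 | h6
          · exact hxy h6
          · exact hyx h6
        rw [h0]
        simp
  have h6 : ∑ x, ∑ y, t x y = 2 * ∑ x, ∑ y, (if par x = some y then t x y else 0) := by
    have h7 : ∑ x, ∑ y, t x y = ∑ x, ∑ y, (if par x = some y then t x y else 0) +
        ∑ x, ∑ y, (if par y = some x then t y x else 0) := by
      rw [← Finset.sum_add_distrib]
      refine Finset.sum_congr rfl fun x _ => ?_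
      rw [← Finset.sum_add_distrib]
      exact Finset.sum_congr rfl fun y _ => hdec x y
    rw [h7, Finset.sum_comm (f := fun x y => (if par y = some x then t y x else 0))]
    ring
  have h8 : ∑ x, ∑ y, (W (τ x) (τ y) : ℝ) * ((ε x : ℝ) * h x) * ((ε y : ℝ) * h y) = ∑ x, ∑ y, t x y := by rw [ht]
  rw [h8, h6]
  refine mul_le_mul_of_nonneg_left (Finset.sum_le_sum fun x _ => ?_) (by norm_num)
  cases hp : par x with
  | none =>
    rw [Option.elim_none]
    refine Finset.sum_nonneg fun y _ => ?_
    simp
  | some z =>
    rw [Option.elim_some, Finset.sum_eq_single z]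
    · rw [if_pos rfl, ht]
      simp only
      have h9 := h3 x z hp
      have h10 : (1 : ℝ) ≤ (ε x : ℝ) * ε z * W (τ x) (τ z) := by exact_mod_cast h9
      have h11 : (W (τ x) (τ z) : ℝ) * ((ε x : ℝ) * h x) * ((ε z : ℝ) * h z) =
          ((ε x : ℝ) * ε z * W (τ x) (τ z)) * (h x * h z) := by ring
      rw [h11]
      exact le_mul_of_one_le_left (mul_nonneg (hh x) (hh z)) h10
    · intro y _ hy
      rw [if_neg]
      intro hcon
      exact hy (by simpa using hcon.symm)
    · intro hcon
      exact absurd (Finset.mem_univ z) hcon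

end Pool.Agent.Q14.BD
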